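import Pool.Agent.K3h16.FG.Stm

/-!
# The axis bound (brick AXIS of helper16)
-/

set_option autoImplicit false

namespace Pool.Agent.K3h76.FG

open Pool.Agent.K3h16.FG Pool.Agent.R920.WC

theorem t_AXIS : S_MIN → S_AXIS := by
  intro hMIN ι _ a c I ha hcop hc i hi
  have hpos : ∀ i ∈ I, 0 < a i := fun i hi => by
    have := ha i hi
    omega
  obtain ⟨-, h2, -⟩ := (hMIN a I hpos).2 c hc
  have hai := ha i hi
  have hcoprime : ∀ x ∈ I.erase i, Nat.Coprime (a i) (a x) := fun x hx =>
    hcop i hi x (Finset.mem_of_mem_erase hx) (Finset.ne_of_mem_erase hx).symm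
  have hcx : ∀ x ∈ I.erase i, c x ≤ a i := fun x hx =>
    h2 x (Finset.mem_of_mem_erase hx) i hi (Finset.ne_of_mem_erase hx).symm
  have key : ∀ x ∈ I.erase i, ∀ x' ∈ I.erase i, ∀ t t' : ℕ, 1 ≤ t → t ≤ c x - 1 → 1 ≤ t' →
      t' ≤ c x' - 1 → (t * a x) % a i = (t' * a x') % a i → t * a x ≤ t' * a x' →
      x = x' ∧ t = t' := by
    intro x hx x' hx' t t' ht1 ht2 ht1' ht2' hmod hle
    have hdvd : a i ∣ t' * a x' - t * a x := (Nat.modEq_iff_dvd' hle).1 hmod
    by_cases hxx : x = x'
    · subst hxx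
      refine ⟨rfl, ?_⟩
      rw [← Nat.sub_mul] at hdvd
      have h3 : a i ∣ t' - t := (hcoprime x hx).dvd_of_dvd_mul_right hdvd
      have h4 : t ≤ t' := Nat.le_of_mul_le_mul_right hle (hpos x (Finset.mem_of_mem_erase hx))
      have h5 := hcx x hx
      by_contra hne
      have h6 := Nat.le_of_dvd (by omega) h3
      omega
    · exfalso
      obtain ⟨z, hz⟩ := hdvd
      have h3 := hc.min x' (Finset.mem_of_mem_erase hx') t'
        (fun k => (if k = x then t else 0) + (if k = i then z else 0)) ht1'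
        (by
          show (if x' = x then t else 0) + (if x' = i then z else 0) = 0
          rw [if_neg (Ne.symm hxx), if_neg (Finset.ne_of_mem_erase hx')])
        (by
          rw [dg_add, dg_single a I (Finset.mem_of_mem_erase hx), dg_single a I hi, mul_comm z]
          omega)
      omega
  have hcard : ((I.erase i).sigma fun x => Finset.Icc 1 (c x - 1)).card =
      ∑ x ∈ I.erase i, (c x - 1) := by
    rw [Finset.card_sigma]
    refine Finset.sum_congr rfl fun x _ => ?_
    rw [Nat.card_Icc]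
    omega
  have hle : ((I.erase i).sigma fun x => Finset.Icc 1 (c x - 1)).card ≤
      ((Finset.range (a i)).erase 0).card := by
    refine Finset.card_le_card_of_injOn (fun p => (p.2 * a p.1) % a i) ?_ ?_
    · rintro ⟨x, t⟩ hp
      have hp' : (⟨x, t⟩ : Σ _ : ι, ℕ) ∈ (I.erase i).sigma fun x => Finset.Icc 1 (c x - 1) := hp
      rw [Finset.mem_sigma, Finset.mem_Icc] at hp'
      obtain ⟨hx, ht1, ht2⟩ := hp'
      show (t * a x) % a i ∈ (Finset.range (a i)).erase 0
      rw [Finset.mem_erase, Finset.mem_range]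
      refine ⟨fun h => ?_, Nat.mod_lt _ (by omega)⟩
      have h4 : a i ∣ t * a x := Nat.dvd_of_mod_eq_zero h
      have h5 : a i ∣ t := (hcoprime x hx).dvd_of_dvd_mul_right h4
      have h6 := Nat.le_of_dvd (show 0 < t from ht1) h5
      have h7 := hcx x hx
      have h8 : t ≤ c x - 1 := ht2
      omega
    · rintro ⟨x, t⟩ hp ⟨x', t'⟩ hp' hmod
      have hq : (⟨x, t⟩ : Σ _ : ι, ℕ) ∈ (I.erase i).sigma fun x => Finset.Icc 1 (c x - 1) := hp
      have hq' : (⟨x', t'⟩ : Σ _ : ι, ℕ) ∈ (I.erase i).sigma fun x => Finset.Icc 1 (c x - 1) := hp'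
      rw [Finset.mem_sigma, Finset.mem_Icc] at hq hq'
      obtain ⟨hx, ht1, ht2⟩ := hq
      obtain ⟨hx', ht1', ht2'⟩ := hq'
      have hmod' : (t * a x) % a i = (t' * a x') % a i := hmod
      rcases le_total (t * a x) (t' * a x') with h | h
      · obtain ⟨rfl, rfl⟩ := key x hx x' hx' t t' ht1 ht2 ht1' ht2' hmod' h
        rfl
      · obtain ⟨rfl, rfl⟩ := key x' hx' x hx t' t ht1' ht2' ht1 ht2 hmod'.symm h
        rfl
  rw [hcard, Finset.card_erase_of_mem (Finset.mem_range.2 (by omega)), Finset.card_range] at hle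
  omega

end Pool.Agent.K3h76.FG
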